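import Pool.Agent.Helper30.LS.Star2
import Pool.Agent.Helper49.LS.Bm2

/-!
# The square root of the area of the superlevel sets is concave
-/

set_option autoImplicit false
namespace Pool.Agent.Helper7.LS
open MeasureTheory Metric
open Pool.Agent.Helper59.Pack Pool.Agent.Helper69.MD
open scoped ENNReal Pointwise

theorem lev_compact {K : Set E3} (hK : IsConvexBody K) {u : ℝ} (hu : 0 ≤ u) :
    IsCompact (lev K u) := by
  rcases hu.eq_or_lt with h | h
  · rw [← h, lev_zero]; exact proj_compact hK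
  · have e : lev K u = {y | u ≤ len K y} := by
      ext y
      refine ⟨fun h => h.2, fun hy => ⟨?_, hy⟩⟩
      by_contra hn
      have h1 : u ≤ len K y := hy
      rw [len_off hn] at h1
      linarith
    rw [e]
    exact superlevel_compact hK h

theorem lev_convex {K : Set E3} (hK : IsConvexBody K) (u : ℝ) : Convex ℝ (lev K u) :=
  (len_concave hK).convex_ge u

theorem lev_nonempty {K : Set E3} {M : ℝ} (hM : ∃ c, len K c = M) (hM0 : 0 < M)
    {u : ℝ} (hu1 : u ≤ M) : (lev K u).Nonempty := by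
  obtain ⟨c, hc⟩ := hM
  refine ⟨c, ?_, by rw [hc]; exact hu1⟩
  by_contra hn
  rw [len_off hn] at hc
  linarith

theorem vol_smul2 {r : ℝ} (hr : 0 ≤ r) (s : Set P2) :
    (volume (r • s)).toReal = r ^ 2 * (volume s).toReal := by
  rw [Measure.addHaar_smul]
  have : Module.finrank ℝ P2 = 2 := by simp [P2]
  rw [this, abs_of_nonneg (by positivity), ENNReal.toReal_mul,
    ENNReal.toReal_ofReal (by positivity)]

theorem ar_antitone {K : Set E3} (hK : IsConvexBody K) : Antitone (ar K) := by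
  intro u v huv
  apply ENNReal.toReal_mono
  · exact ((measure_mono (fun y hy => hy.1)).trans_lt (proj_compact hK).measure_lt_top).ne
  · exact measure_mono (fun y hy => ⟨hy.1, huv.trans hy.2⟩)

theorem ar_conc {K : Set E3} (hK : IsConvexBody K) {M : ℝ} (hM : ∃ c, len K c = M) (hM0 : 0 < M)
    {u v l : ℝ} (hu : 0 ≤ u) (hu1 : u ≤ M) (hv : 0 ≤ v) (hv1 : v ≤ M) (hl : 0 ≤ l) (hl1 : l ≤ 1) :
    (1 - l) * √(ar K u) + l * √(ar K v) ≤ √(ar K ((1 - l) * u + l * v)) := by
  have hl' : 0 ≤ 1 - l := by linarith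
  have hw : 0 ≤ (1 - l) * u + l * v := by positivity
  have hsub : (1 - l) • lev K u + l • lev K v ⊆ lev K ((1 - l) * u + l * v) := by
    rintro _ ⟨_, ⟨y, hy, rfl⟩, _, ⟨y', hy', rfl⟩, rfl⟩
    have hc := (len_concave hK).2 hy.1 hy'.1 hl' hl (by ring)
    refine ⟨(proj_convex hK) hy.1 hy'.1 hl' hl (by ring), le_trans ?_ hc⟩
    simp only [smul_eq_mul]
    have h1 := hy.2
    have h2 := hy'.2
    gcongr
  have h := Pool.Agent.Helper49.LS.bm2 ((lev_convex hK u).smul (1 - l)) ((lev_compact hK hu).smul (1 - l))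
    (lev_nonempty hM hM0 hu1).smul_set ((lev_convex hK v).smul l) ((lev_compact hK hv).smul l)
    (lev_nonempty hM hM0 hv1).smul_set (lev_compact hK hw).isClosed.measurableSet
    (lev_compact hK hw).measure_lt_top.ne hsub
  rw [vol_smul2 hl', vol_smul2 hl] at h
  apply Real.le_sqrt_of_sq_le
  refine le_trans (le_of_eq ?_) h
  congr 1
  rw [Real.sqrt_mul (by positivity), Real.sqrt_mul (by positivity), Real.sqrt_sq hl',
    Real.sqrt_sq hl]
  rfl

end Pool.Agent.Helper7.LS
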