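import Pool.Agent.Helper7.LS.Cert

/-!
# The inequality for the areas of the superlevel sets
-/

set_option autoImplicit false
namespace Pool.Agent.Helper7.LS
open MeasureTheory

theorem integral_chord (p q α β : ℝ) (hpq : p < q) :
    ∫ u in p..q, ((1 - (u - p) / (q - p)) * α + (u - p) / (q - p) * β) ^ 2 =
      (q - p) * (α ^ 2 + α * β + β ^ 2) / 3 := by
  have hd : q - p ≠ 0 := by
    have : 0 < q - p := by linarith
    exact this.ne'
  set F : ℝ → ℝ := fun u => α ^ 2 * u + α * (β - α) / (q - p) * (u - p) ^ 2 +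
    (β - α) ^ 2 / (3 * (q - p) ^ 2) * (u - p) ^ 3 with hF
  have hder : ∀ u ∈ Set.uIcc p q, HasDerivAt F
      (((1 - (u - p) / (q - p)) * α + (u - p) / (q - p) * β) ^ 2) u := by
    intro u _
    have h1 : HasDerivAt (fun u : ℝ => α ^ 2 * u) (α ^ 2 * 1) u := (hasDerivAt_id u).const_mul _
    have h2 : HasDerivAt (fun u : ℝ => (u - p) ^ 2) (2 * (u - p) ^ 1 * 1) u := by
      simpa using ((hasDerivAt_id u).sub_const p).fun_pow 2
    have h3 : HasDerivAt (fun u : ℝ => (u - p) ^ 3) (3 * (u - p) ^ 2 * 1) u := by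
      simpa using ((hasDerivAt_id u).sub_const p).fun_pow 3
    have h := (h1.add (h2.const_mul (α * (β - α) / (q - p)))).add
      (h3.const_mul ((β - α) ^ 2 / (3 * (q - p) ^ 2)))
    refine h.congr_deriv ?_
    field_simp
    ring
  rw [intervalIntegral.integral_eq_sub_of_hasDerivAt hder]
  · rw [hF]
    field_simp
    ring
  · apply Continuous.intervalIntegrable
    fun_prop

theorem seg {A : ℝ → ℝ} {M : ℝ} (hAn : ∀ u, 0 ≤ A u) (hAm : AntitoneOn A (Set.Icc 0 M))
    (hc : ∀ u v l : ℝ, 0 ≤ u → u ≤ M → 0 ≤ v → v ≤ M → 0 ≤ l → l ≤ 1 →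
      (1 - l) * √(A u) + l * √(A v) ≤ √(A ((1 - l) * u + l * v)))
    {p q α β : ℝ} (hp : 0 ≤ p) (hpq : p ≤ q) (hq : q ≤ M) (hα0 : 0 ≤ α) (hβ0 : 0 ≤ β)
    (hα : α ≤ √(A p)) (hβ : β ≤ √(A q)) :
    (q - p) * (α ^ 2 + α * β + β ^ 2) / 3 ≤ ∫ u in p..q, A u := by
  rcases hpq.eq_or_lt with h | h
  · rw [← h]; simp
  rw [← integral_chord p q α β h]
  have hd : 0 < q - p := by linarith
  refine intervalIntegral.integral_mono_on hpq (Continuous.intervalIntegrable (by fun_prop) _ _)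
    ?_ ?_
  · apply AntitoneOn.intervalIntegrable
    rw [Set.uIcc_of_le hpq]
    exact hAm.mono (Set.Icc_subset_Icc hp hq)
  · intro u hu
    set l := (u - p) / (q - p) with hl
    have hl0 : 0 ≤ l := div_nonneg (by linarith [hu.1]) hd.le
    have hl1 : l ≤ 1 := (div_le_one hd).2 (by linarith [hu.2])
    have e : (1 - l) * p + l * q = u := by
      rw [hl]; field_simp; ring
    have h1 := hc p q l hp (hpq.trans hq) (hp.trans hpq) hq hl0 hl1
    rw [e] at h1
    have h2 : (1 - l) * α + l * β ≤ √(A u) := by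
      refine le_trans ?_ h1
      have : 0 ≤ 1 - l := by linarith
      gcongr
    have h3 : 0 ≤ (1 - l) * α + l * β := by
      have : 0 ≤ 1 - l := by linarith
      positivity
    calc ((1 - l) * α + l * β) ^ 2 ≤ √(A u) ^ 2 := pow_le_pow_left₀ h3 h2 2
      _ = A u := Real.sq_sqrt (hAn u)

/-- The inequality for the areas of the superlevel sets. -/
theorem profile {A : ℝ → ℝ} {M a V s : ℝ} (hM : 0 < M) (ha : 0 < a) (hA0 : A 0 = a)
    (hAn : ∀ u, 0 ≤ A u) (hAm : AntitoneOn A (Set.Icc 0 M))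
    (hc : ∀ u v l : ℝ, 0 ≤ u → u ≤ M → 0 ≤ v → v ≤ M → 0 ≤ l → l ≤ 1 →
      (1 - l) * √(A u) + l * √(A v) ≤ √(A ((1 - l) * u + l * v)))
    (hV : V = ∫ u in (0 : ℝ)..M, A u) (hs : 5 / 9 ≤ s) (hs1 : s ≤ 1)
    (hVs : V = 3 / 5 * s * (M * a)) :
    4 * (2 / M * (∫ u in (M / 4)..(M / 2), A u) + 1 / 2 * A (M / 2)) < 2 * V / (9 / 20 * M) ∨
    4 * (2 / (2 * s * M) * (∫ u in (2 * s * M / 4)..(2 * s * M / 2), A u) +
      1 / 2 * A (2 * s * M / 2)) < 4 / 3 * a := by
  by_contra hcon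
  push Not at hcon
  obtain ⟨c1, c2⟩ := hcon
  have hs0 : 0 < s := by linarith
  have hsM : s * M ≤ M := by nlinarith
  have e1 : 2 * s * M / 4 = s * M / 2 := by ring
  have e2 : 2 * s * M / 2 = s * M := by ring
  rw [e1, e2] at c2
  set S := √a with hS
  have hS0 : 0 < S := Real.sqrt_pos.2 ha
  have hSS : S ^ 2 = a := Real.sq_sqrt ha.le
  have hSA : √(A 0) = S := by rw [hA0]
  set X := √(A (M / 2)) with hX
  have hX0 : 0 ≤ X := Real.sqrt_nonneg _
  have hXX : X ^ 2 = A (M / 2) := Real.sq_sqrt (hAn _)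
  set Y := √(A (s * M)) with hY
  have hY0 : 0 ≤ Y := Real.sqrt_nonneg _
  have hYY : Y ^ 2 = A (s * M) := Real.sq_sqrt (hAn _)
  obtain ⟨x, hx⟩ : ∃ x, x = X / S := ⟨_, rfl⟩
  obtain ⟨y, hy⟩ : ∃ y, y = Y / S := ⟨_, rfl⟩
  have hXx : X = x * S := by rw [hx, div_mul_cancel₀ _ hS0.ne']
  have hYy : Y = y * S := by rw [hy, div_mul_cancel₀ _ hS0.ne']
  have hy0 : 0 ≤ y := by rw [hy]; positivity
  have hx0 : 0 ≤ x := by rw [hx]; positivity
  -- concavity
  have k1 : X ≤ S := by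
    rw [hX, hS, ← hA0]
    exact Real.sqrt_le_sqrt (hAm ⟨le_rfl, hM.le⟩ ⟨by linarith, by linarith⟩ (by linarith))
  have k2 : 1 / 2 * S ≤ X := by
    have h := hc 0 M (1 / 2) le_rfl hM.le hM.le le_rfl (by norm_num) (by norm_num)
    rw [show (1 - 1 / 2) * 0 + 1 / 2 * M = M / 2 by ring, hSA] at h
    have := Real.sqrt_nonneg (A M)
    linarith
  have k3 : Y ≤ 2 * s * X - (2 * s - 1) * S := by
    have h := hc 0 (s * M) (1 / (2 * s)) le_rfl hM.le (by positivity) hsM (by positivity)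
      (by rw [div_le_one (by positivity)]; linarith)
    rw [show (1 - 1 / (2 * s)) * 0 + 1 / (2 * s) * (s * M) = M / 2 by field_simp; ring, hSA] at h
    have h2 := mul_le_mul_of_nonneg_left h (show 0 ≤ 2 * s by positivity)
    have e : 2 * s * ((1 - 1 / (2 * s)) * S + 1 / (2 * s) * √(A (s * M))) =
        (2 * s - 1) * S + √(A (s * M)) := by
      field_simp
    rw [e] at h2
    linarith
  have k4 : (S + X) / 2 ≤ √(A (M / 4)) := by
    have h := hc 0 (M / 2) (1 / 2) le_rfl hM.le (by positivity) (by linarith) (by norm_num)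
      (by norm_num)
    rw [show (1 - 1 / 2) * 0 + 1 / 2 * (M / 2) = M / 4 by ring, hSA] at h
    linarith
  have k5 : (1 - s) * S + s * X ≤ √(A (s * M / 2)) := by
    have h := hc 0 (M / 2) s le_rfl hM.le (by positivity) (by linarith) hs0.le hs1
    rw [show (1 - s) * 0 + s * (M / 2) = s * M / 2 by ring, hSA] at h
    exact h
  have x1 : x ≤ 1 := by rw [hx]; exact (div_le_one hS0).2 k1
  have x2 : 1 / 2 ≤ x := by rw [hx, le_div_iff₀ hS0]; exact k2
  have y1 : y ≤ 1 - 2 * (1 - x) * s := by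
    rw [hYy, hXx] at k3
    have : y * S ≤ (1 - 2 * (1 - x) * s) * S := by linarith
    exact le_of_mul_le_mul_right this hS0
  -- integrals
  have hint : ∀ p q : ℝ, 0 ≤ p → p ≤ q → q ≤ M → IntervalIntegrable A volume p q := by
    intro p q hp hpq hq
    apply AntitoneOn.intervalIntegrable
    rw [Set.uIcc_of_le hpq]
    exact hAm.mono (Set.Icc_subset_Icc hp hq)
  have hsM2 : M / 2 ≤ s * M := by nlinarith
  have i1 : IntervalIntegrable A volume 0 (M / 4) := hint _ _ le_rfl (by positivity) (by linarith)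
  have i2 : IntervalIntegrable A volume (M / 4) (M / 2) :=
    hint _ _ (by positivity) (by linarith) (by linarith)
  have i3 : IntervalIntegrable A volume (M / 2) (s * M) := hint _ _ (by positivity) hsM2 hsM
  have i4 : IntervalIntegrable A volume (s * M) M := hint _ _ (by positivity) hsM le_rfl
  have i5 : IntervalIntegrable A volume 0 (s * M / 2) :=
    hint _ _ le_rfl (by positivity) (by nlinarith)
  have i6 : IntervalIntegrable A volume (s * M / 2) (s * M) :=
    hint _ _ (by positivity) (by nlinarith [mul_pos hs0 hM]) hsM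
  have s1 : (∫ u in (0 : ℝ)..(M / 4), A u) + (∫ u in (M / 4)..(M / 2), A u) +
      (∫ u in (M / 2)..(s * M), A u) + (∫ u in (s * M)..M, A u) = V := by
    rw [intervalIntegral.integral_add_adjacent_intervals i1 i2,
      intervalIntegral.integral_add_adjacent_intervals (i1.trans i2) i3,
      intervalIntegral.integral_add_adjacent_intervals ((i1.trans i2).trans i3) i4, hV]
  have s2 : (∫ u in (0 : ℝ)..(s * M / 2), A u) + (∫ u in (s * M / 2)..(s * M), A u) +
      (∫ u in (s * M)..M, A u) = V := by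
    rw [intervalIntegral.integral_add_adjacent_intervals i5 i6,
      intervalIntegral.integral_add_adjacent_intervals (i5.trans i6) i4, hV]
  have b1 := seg hAn hAm hc (p := 0) (q := M / 4) (α := S) (β := (S + X) / 2) le_rfl
    (by positivity) (by linarith) hS0.le (by positivity) hSA.ge k4
  have b3 := seg hAn hAm hc (p := M / 2) (q := s * M) (α := X) (β := Y) (by positivity)
    hsM2 hsM hX0 hY0 le_rfl le_rfl
  have b4 := seg hAn hAm hc (p := s * M) (q := M) (α := Y) (β := 0) (by positivity)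
    hsM le_rfl hY0 le_rfl le_rfl (Real.sqrt_nonneg _)
  have b5 := seg hAn hAm hc (p := 0) (q := s * M / 2) (α := S) (β := (1 - s) * S + s * X) le_rfl
    (by positivity) (by nlinarith) hS0.le
    (add_nonneg (mul_nonneg (by linarith) hS0.le) (by positivity)) hSA.ge k5
  have f1 : M * (s * a / 3 - X ^ 2 / 4) ≤ ∫ u in (M / 4)..(M / 2), A u := by
    have e3 : 2 * V / (9 / 20 * M) = 8 / 3 * s * a := by
      rw [hVs]; field_simp; norm_num
    rw [e3, ← hXX] at c1
    set I := ∫ u in (M / 4)..(M / 2), A u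
    have h : M * (8 / 3 * s * a) ≤ M * (4 * (2 / M * I + 1 / 2 * X ^ 2)) := by gcongr
    have e4 : M * (4 * (2 / M * I + 1 / 2 * X ^ 2)) = 8 * I + 2 * M * X ^ 2 := by
      field_simp
      ring
    rw [e4] at h
    linarith
  have f2 : s * M * (a / 3 - Y ^ 2 / 2) ≤ ∫ u in (s * M / 2)..(s * M), A u := by
    rw [← hYY] at c2
    set I := ∫ u in (s * M / 2)..(s * M), A u
    have h : s * M * (4 / 3 * a) ≤ s * M * (4 * (2 / (2 * s * M) * I + 1 / 2 * Y ^ 2)) := by
      gcongr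
    have e4 : s * M * (4 * (2 / (2 * s * M) * I + 1 / 2 * Y ^ 2)) = 4 * I + 2 * (s * M) * Y ^ 2 := by
      field_simp
      ring
    rw [e4] at h
    linarith
  have hMa : 0 < M * a := mul_pos hM ha
  -- the two inequalities
  have v1 : (7 + 4 * x + x ^ 2) / 48 + s / 3 - x ^ 2 / 4 + (s - 1 / 2) * (x ^ 2 + x * y + y ^ 2) / 3 +
      (1 - s) * y ^ 2 / 3 ≤ 3 / 5 * s := by
    have h : (M / 4 - 0) * (S ^ 2 + S * ((S + X) / 2) + ((S + X) / 2) ^ 2) / 3 +
        M * (s * a / 3 - X ^ 2 / 4) + (s * M - M / 2) * (X ^ 2 + X * Y + Y ^ 2) / 3 +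
        (M - s * M) * (Y ^ 2 + Y * 0 + 0 ^ 2) / 3 ≤ 3 / 5 * s * (M * a) := by
      rw [← hVs, ← s1]; linarith
    rw [hXx, hYy, ← hSS] at h
    have e : (M / 4 - 0) * (S ^ 2 + S * ((S + x * S) / 2) + ((S + x * S) / 2) ^ 2) / 3 +
        M * (s * S ^ 2 / 3 - (x * S) ^ 2 / 4) +
        (s * M - M / 2) * ((x * S) ^ 2 + x * S * (y * S) + (y * S) ^ 2) / 3 +
        (M - s * M) * ((y * S) ^ 2 + y * S * 0 + 0 ^ 2) / 3 =
        ((7 + 4 * x + x ^ 2) / 48 + s / 3 - x ^ 2 / 4 +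
        (s - 1 / 2) * (x ^ 2 + x * y + y ^ 2) / 3 + (1 - s) * y ^ 2 / 3) * (M * S ^ 2) := by ring
    rw [e] at h
    have hMS : 0 < M * S ^ 2 := by rw [hSS]; exact hMa
    exact le_of_mul_le_mul_right h hMS
  have v2 : s / 6 * (1 + (1 - (1 - x) * s) + (1 - (1 - x) * s) ^ 2) + s / 3 - s * y ^ 2 / 2 +
      (1 - s) * y ^ 2 / 3 ≤ 3 / 5 * s := by
    have h : (s * M / 2 - 0) * (S ^ 2 + S * ((1 - s) * S + s * X) + ((1 - s) * S + s * X) ^ 2) / 3 +
        s * M * (a / 3 - Y ^ 2 / 2) +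
        (M - s * M) * (Y ^ 2 + Y * 0 + 0 ^ 2) / 3 ≤ 3 / 5 * s * (M * a) := by
      rw [← hVs, ← s2]; linarith
    rw [hXx, hYy, ← hSS] at h
    have e : (s * M / 2 - 0) * (S ^ 2 + S * ((1 - s) * S + s * (x * S)) +
        ((1 - s) * S + s * (x * S)) ^ 2) / 3 + s * M * (S ^ 2 / 3 - (y * S) ^ 2 / 2) +
        (M - s * M) * ((y * S) ^ 2 + y * S * 0 + 0 ^ 2) / 3 =
        (s / 6 * (1 + (1 - (1 - x) * s) + (1 - (1 - x) * s) ^ 2) + s / 3 - s * y ^ 2 / 2 +
      (1 - s) * y ^ 2 / 3) * (M * S ^ 2) := by ring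
    rw [e] at h
    have hMS : 0 < M * S ^ 2 := by rw [hSS]; exact hMa
    exact le_of_mul_le_mul_right h hMS
  have key := cert (s := s) (z := 1 - x) (y := y) hs hs1 (by linarith) (by linarith) hy0 y1
    (by linarith)
  linarith

end Pool.Agent.Helper7.LS
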