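import Mathlib

/-!
# The polynomial inequality behind the bound `9/20`
-/

set_option autoImplicit false
namespace Pool.Agent.Helper7.LS

theorem cert_core {s z y A B c : ℝ} (hs : 5 / 9 ≤ s) (hs1 : s ≤ 1) (hz : 0 ≤ z)
    (hz1 : z ≤ 1 / 2) (hy : 0 ≤ y) (h1 : y ≤ 1 - 2 * z * s)
    (h2 : s * (7 - 15 * z * s + 5 * z ^ 2 * s ^ 2) ≤ 5 * (5 * s - 2) * y ^ 2)
    (hc0 : 0 < c) (hc : c < 1 / 2) (hB : 0 ≤ B) (hAc : 0 ≤ A - B * c)
    (p1 : 0 < s * (7 - 15 * c * s + 5 * c ^ 2 * s ^ 2) - 5 * (5 * s - 2) * (1 - 2 * c * s) ^ 2)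
    (p1' : 0 < s * (7 - 15 * (1 / 2) * s + 5 * (1 / 2) ^ 2 * s ^ 2) -
      5 * (5 * s - 2) * (1 - 2 * (1 / 2) * s) ^ 2)
    (p2 : 0 < s * (7 - 15 * 0 * s + 5 * 0 ^ 2 * s ^ 2) - 5 * (5 * s - 2) * A ^ 2)
    (p2' : 0 < s * (7 - 15 * c * s + 5 * c ^ 2 * s ^ 2) - 5 * (5 * s - 2) * (A - B * c) ^ 2)
    (p2c : 0 < 5 * (5 * s - 2) * B ^ 2 - 5 * s ^ 3)
    (g1 : 0 < (s - 1 / 2) * (1 - c) * (1 - c + (A - B * c)) + (A - B * c) ^ 2 / 2 - 4 / 5 * s +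
      (18 * c - 11 * c ^ 2) / 16)
    (g0 : 0 < (s - 1 / 2) * (1 - 0) * (1 - 0 + A) + A ^ 2 / 2 - 4 / 5 * s +
      (18 * 0 - 11 * 0 ^ 2) / 16)
    (gd : 0 < (s - 1 / 2) * (1 - 0) * (1 - 0 + A) + A ^ 2 / 2 - 4 / 5 * s +
      (18 * 0 - 11 * 0 ^ 2) / 16 - ((s - 1 / 2) * (1 + B) + B ^ 2 / 2 - 11 / 16) * c ^ 2) :
    4 / 5 * s - (18 * z - 11 * z ^ 2) / 16 < (s - 1 / 2) * (1 - z) * (1 - z + y) + y ^ 2 / 2 := by
  have h5 : 0 < 5 * (5 * s - 2) := by linarith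
  have hs0 : 0 < s := by linarith
  -- step 1
  have hzc : z ≤ c := by
    by_contra hcon
    push Not at hcon
    have e : (s * (7 - 15 * z * s + 5 * z ^ 2 * s ^ 2) -
        5 * (5 * s - 2) * (1 - 2 * z * s) ^ 2) * (1 / 2 - c) =
        (1 / 2 - z) * (s * (7 - 15 * c * s + 5 * c ^ 2 * s ^ 2) -
          5 * (5 * s - 2) * (1 - 2 * c * s) ^ 2) +
        (z - c) * (s * (7 - 15 * (1 / 2) * s + 5 * (1 / 2) ^ 2 * s ^ 2) -
          5 * (5 * s - 2) * (1 - 2 * (1 / 2) * s) ^ 2) +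
        s ^ 2 * (95 * s - 40) * (1 / 2 - c) * ((z - c) * (1 / 2 - z)) := by ring
    have q1 : 0 ≤ (1 / 2 - z) * (s * (7 - 15 * c * s + 5 * c ^ 2 * s ^ 2) -
          5 * (5 * s - 2) * (1 - 2 * c * s) ^ 2) := mul_nonneg (by linarith) p1.le
    have q2 : 0 < (z - c) * (s * (7 - 15 * (1 / 2) * s + 5 * (1 / 2) ^ 2 * s ^ 2) -
          5 * (5 * s - 2) * (1 - 2 * (1 / 2) * s) ^ 2) := mul_pos (by linarith) p1'
    have q3 : 0 ≤ s ^ 2 * (95 * s - 40) * (1 / 2 - c) * ((z - c) * (1 / 2 - z)) :=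
      mul_nonneg (mul_nonneg (mul_nonneg (sq_nonneg s) (by linarith)) (by linarith))
        (mul_nonneg (by linarith) (by linarith))
    have q4 : 0 < (s * (7 - 15 * z * s + 5 * z ^ 2 * s ^ 2) -
        5 * (5 * s - 2) * (1 - 2 * z * s) ^ 2) * (1 / 2 - c) := by rw [e]; linarith
    have q5 : 0 < s * (7 - 15 * z * s + 5 * z ^ 2 * s ^ 2) -
        5 * (5 * s - 2) * (1 - 2 * z * s) ^ 2 := pos_of_mul_pos_left q4 (by linarith)
    have q6 : y ^ 2 ≤ (1 - 2 * z * s) ^ 2 := pow_le_pow_left₀ hy h1 2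
    have q7 : 5 * (5 * s - 2) * y ^ 2 ≤ 5 * (5 * s - 2) * (1 - 2 * z * s) ^ 2 := by gcongr
    linarith
  -- step 2
  have hAz : 0 ≤ A - B * z := by
    have : B * z ≤ B * c := by gcongr
    linarith
  have hyL : A - B * z ≤ y := by
    by_contra hcon
    push Not at hcon
    have e : (s * (7 - 15 * z * s + 5 * z ^ 2 * s ^ 2) - 5 * (5 * s - 2) * (A - B * z) ^ 2) * c =
        (c - z) * (s * (7 - 15 * 0 * s + 5 * 0 ^ 2 * s ^ 2) - 5 * (5 * s - 2) * A ^ 2) +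
        z * (s * (7 - 15 * c * s + 5 * c ^ 2 * s ^ 2) - 5 * (5 * s - 2) * (A - B * c) ^ 2) +
        (5 * (5 * s - 2) * B ^ 2 - 5 * s ^ 3) * c * (z * (c - z)) := by ring
    have q1 := mul_nonneg (sub_nonneg.2 hzc) p2.le
    have q2 := mul_nonneg hz p2'.le
    have q3 : 0 ≤ (5 * (5 * s - 2) * B ^ 2 - 5 * s ^ 3) * c * (z * (c - z)) :=
      mul_nonneg (mul_nonneg p2c.le hc0.le) (mul_nonneg hz (by linarith))
    have q4 : 0 ≤ (s * (7 - 15 * z * s + 5 * z ^ 2 * s ^ 2) -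
        5 * (5 * s - 2) * (A - B * z) ^ 2) * c := by rw [e]; linarith
    have q5 := nonneg_of_mul_nonneg_left q4 hc0
    have q6 : y ^ 2 < (A - B * z) ^ 2 := pow_lt_pow_left₀ hcon hy (by norm_num)
    have q7 : 5 * (5 * s - 2) * y ^ 2 < 5 * (5 * s - 2) * (A - B * z) ^ 2 := by gcongr
    linarith
  -- step 3
  have e1 : (s - 1 / 2) * (1 - z) * (1 - z + (A - B * z)) ≤
      (s - 1 / 2) * (1 - z) * (1 - z + y) := by
    have : 0 ≤ (s - 1 / 2) * (1 - z) := mul_nonneg (by linarith) (by linarith)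
    gcongr
  have e2 : (A - B * z) ^ 2 ≤ y ^ 2 := pow_le_pow_left₀ hAz hyL 2
  have e3 : 0 < (s - 1 / 2) * (1 - z) * (1 - z + (A - B * z)) + (A - B * z) ^ 2 / 2 - 4 / 5 * s +
      (18 * z - 11 * z ^ 2) / 16 := by
    have hg : 0 < (s - 1 / 2) * (1 - 0) * (1 - 0 + A) + A ^ 2 / 2 - 4 / 5 * s +
        (18 * 0 - 11 * 0 ^ 2) / 16 - ((s - 1 / 2) * (1 + B) + B ^ 2 / 2 - 11 / 16) * (c * z) := by
      rcases le_total ((s - 1 / 2) * (1 + B) + B ^ 2 / 2 - 11 / 16) 0 with h | h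
      · have : ((s - 1 / 2) * (1 + B) + B ^ 2 / 2 - 11 / 16) * (c * z) ≤ 0 :=
          mul_nonpos_of_nonpos_of_nonneg h (mul_nonneg hc0.le hz)
        linarith
      · have : ((s - 1 / 2) * (1 + B) + B ^ 2 / 2 - 11 / 16) * (c * z) ≤
            ((s - 1 / 2) * (1 + B) + B ^ 2 / 2 - 11 / 16) * c ^ 2 := by
          apply mul_le_mul_of_nonneg_left _ h
          nlinarith
        linarith
    have e : ((s - 1 / 2) * (1 - z) * (1 - z + (A - B * z)) + (A - B * z) ^ 2 / 2 - 4 / 5 * s +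
      (18 * z - 11 * z ^ 2) / 16) * c =
      (c - z) * ((s - 1 / 2) * (1 - 0) * (1 - 0 + A) + A ^ 2 / 2 - 4 / 5 * s +
        (18 * 0 - 11 * 0 ^ 2) / 16 - ((s - 1 / 2) * (1 + B) + B ^ 2 / 2 - 11 / 16) * (c * z)) +
      z * ((s - 1 / 2) * (1 - c) * (1 - c + (A - B * c)) + (A - B * c) ^ 2 / 2 - 4 / 5 * s +
        (18 * c - 11 * c ^ 2) / 16) := by ring
    have q : 0 < ((s - 1 / 2) * (1 - z) * (1 - z + (A - B * z)) + (A - B * z) ^ 2 / 2 -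
        4 / 5 * s + (18 * z - 11 * z ^ 2) / 16) * c := by
      rw [e]
      rcases hz.eq_or_lt with h | h
      · rw [← h] at hg ⊢
        have := mul_pos (show 0 < c - 0 by linarith) hg
        linarith
      · have q1 := mul_nonneg (sub_nonneg.2 hzc) hg.le
        have q2 := mul_pos h g1
        linarith
    exact pos_of_mul_pos_left q hc0.le
  linarith

theorem p1c1_0 {s : ℝ} (h0 : 4 / 5 ≤ s) (h1 : s ≤ 9 / 10) :
    0 < s * (7 - 15 * ((163 / 500) - (3 / 50) * s) * s + 5 * ((163 / 500) - (3 / 50) * s) ^ 2 * s ^ 2) - 5 * (5 * s - 2) * (1 - 2 * ((163 / 500) - (3 / 50) * s) * s) ^ 2 := by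
  obtain ⟨u, hu⟩ : ∃ u, u = s - (4 / 5) := ⟨_, rfl⟩
  obtain ⟨v, hv⟩ : ∃ v, v = (9 / 10) - s := ⟨_, rfl⟩
  have hu0 : 0 ≤ u := by linarith
  have hv0 : 0 ≤ v := by linarith
  have huv : 0 < u + v := by rw [hu, hv]; norm_num
  have e : s * (7 - 15 * ((163 / 500) - (3 / 50) * s) * s + 5 * ((163 / 500) - (3 / 50) * s) ^ 2 * s ^ 2) - 5 * (5 * s - 2) * (1 - 2 * ((163 / 500) - (3 / 50) * s) * s) ^ 2 =
      (582208 / 125) * v ^ 5 + (1613776 / 125) * u * v ^ 4 + (306792 / 25) * u ^ 2 * v ^ 3 + (2635389 / 500) * u ^ 3 * v ^ 2 + (262994 / 125) * u ^ 4 * v + (106496 / 125) * u ^ 5 := by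
    rw [hu, hv]; ring
  rw [e]
  rcases hu0.eq_or_lt with h | h
  · have hv1 : 0 < v := by linarith
    positivity
  · positivity

theorem p1c1_1 {s : ℝ} (h0 : 9 / 10 ≤ s) (h1 : s ≤ 1) :
    0 < s * (7 - 15 * ((163 / 500) - (3 / 50) * s) * s + 5 * ((163 / 500) - (3 / 50) * s) ^ 2 * s ^ 2) - 5 * (5 * s - 2) * (1 - 2 * ((163 / 500) - (3 / 50) * s) * s) ^ 2 := by
  obtain ⟨u, hu⟩ : ∃ u, u = s - (9 / 10) := ⟨_, rfl⟩
  obtain ⟨v, hv⟩ : ∃ v, v = 1 - s := ⟨_, rfl⟩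
  have hu0 : 0 ≤ u := by linarith
  have hv0 : 0 ≤ v := by linarith
  have huv : 0 < u + v := by rw [hu, hv]; norm_num
  have e : s * (7 - 15 * ((163 / 500) - (3 / 50) * s) * s + 5 * ((163 / 500) - (3 / 50) * s) ^ 2 * s ^ 2) - 5 * (5 * s - 2) * (1 - 2 * ((163 / 500) - (3 / 50) * s) * s) ^ 2 =
      (106496 / 125) * v ^ 5 + (801966 / 125) * u * v ^ 4 + (11258941 / 500) * u ^ 2 * v ^ 3 + (1850779 / 50) * u ^ 3 * v ^ 2 + (139519 / 5) * u ^ 4 * v + 7842 * u ^ 5 := by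
    rw [hu, hv]; ring
  rw [e]
  rcases hu0.eq_or_lt with h | h
  · have hv1 : 0 < v := by linarith
    positivity
  · positivity

theorem p1c1 {s : ℝ} (h0 : 4 / 5 ≤ s) (h1 : s ≤ 1) :
    0 < s * (7 - 15 * ((163 / 500) - (3 / 50) * s) * s + 5 * ((163 / 500) - (3 / 50) * s) ^ 2 * s ^ 2) - 5 * (5 * s - 2) * (1 - 2 * ((163 / 500) - (3 / 50) * s) * s) ^ 2 := by
  rcases le_total s (9 / 10) with k0 | k0
  · exact p1c1_0 h0 k0
  exact p1c1_1 k0 h1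

theorem p1h1 {s : ℝ} (h0 : 4 / 5 ≤ s) (h1 : s ≤ 1) :
    0 < s * (7 - 15 * (1 / 2) * s + 5 * (1 / 2) ^ 2 * s ^ 2) - 5 * (5 * s - 2) * (1 - 2 * (1 / 2) * s) ^ 2 := by
  obtain ⟨u, hu⟩ : ∃ u, u = s - (4 / 5) := ⟨_, rfl⟩
  obtain ⟨v, hv⟩ : ∃ v, v = 1 - s := ⟨_, rfl⟩
  have hu0 : 0 ≤ u := by linarith
  have hv0 : 0 ≤ v := by linarith
  have huv : 0 < u + v := by rw [hu, hv]; norm_num
  have e : s * (7 - 15 * (1 / 2) * s + 5 * (1 / 2) ^ 2 * s ^ 2) - 5 * (5 * s - 2) * (1 - 2 * (1 / 2) * s) ^ 2 =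
      130 * v ^ 3 + 400 * u * v ^ 2 + (775 / 2) * u ^ 2 * v + (375 / 4) * u ^ 3 := by
    rw [hu, hv]; ring
  rw [e]
  rcases hu0.eq_or_lt with h | h
  · have hv1 : 0 < v := by linarith
    positivity
  · positivity

theorem p201 {s : ℝ} (h0 : 4 / 5 ≤ s) (h1 : s ≤ 1) :
    0 < s * (7 - 15 * 0 * s + 5 * 0 ^ 2 * s ^ 2) - 5 * (5 * s - 2) * ((91 / 100) - (227 / 1000) * s) ^ 2 := by
  obtain ⟨u, hu⟩ : ∃ u, u = s - (4 / 5) := ⟨_, rfl⟩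
  obtain ⟨v, hv⟩ : ∃ v, v = 1 - s := ⟨_, rfl⟩
  have hu0 : 0 ≤ u := by linarith
  have hv0 : 0 ≤ v := by linarith
  have huv : 0 < u + v := by rw [hu, hv]; norm_num
  have e : s * (7 - 15 * 0 * s + 5 * 0 ^ 2 * s ^ 2) - 5 * (5 * s - 2) * ((91 / 100) - (227 / 1000) * s) ^ 2 =
      (183959 / 5000) * v ^ 3 + (364447 / 10000) * u * v ^ 2 + (5097 / 4000) * u ^ 2 * v + (533 / 1600) * u ^ 3 := by
    rw [hu, hv]; ring
  rw [e]
  rcases hu0.eq_or_lt with h | h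
  · have hv1 : 0 < v := by linarith
    positivity
  · positivity

theorem p2c1 {s : ℝ} (h0 : 4 / 5 ≤ s) (h1 : s ≤ 1) :
    0 < s * (7 - 15 * ((163 / 500) - (3 / 50) * s) * s + 5 * ((163 / 500) - (3 / 50) * s) ^ 2 * s ^ 2) - 5 * (5 * s - 2) * (((91 / 100) - (227 / 1000) * s) - 79 / 100 * ((163 / 500) - (3 / 50) * s)) ^ 2 := by
  obtain ⟨u, hu⟩ : ∃ u, u = s - (4 / 5) := ⟨_, rfl⟩
  obtain ⟨v, hv⟩ : ∃ v, v = 1 - s := ⟨_, rfl⟩
  have hu0 : 0 ≤ u := by linarith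
  have hv0 : 0 ≤ v := by linarith
  have huv : 0 < u + v := by rw [hu, hv]; norm_num
  have e : s * (7 - 15 * ((163 / 500) - (3 / 50) * s) * s + 5 * ((163 / 500) - (3 / 50) * s) ^ 2 * s ^ 2) - 5 * (5 * s - 2) * (((91 / 100) - (227 / 1000) * s) - 79 / 100 * ((163 / 500) - (3 / 50) * s)) ^ 2 =
      (135119039 / 80000) * v ^ 5 + (41714157 / 6400) * u * v ^ 4 + (5905031 / 625) * u ^ 2 * v ^ 3 + (490389031 / 80000) * u ^ 3 * v ^ 2 + (123309373 / 80000) * u ^ 4 * v + (4915653 / 160000) * u ^ 5 := by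
    rw [hu, hv]; ring
  rw [e]
  rcases hu0.eq_or_lt with h | h
  · have hv1 : 0 < v := by linarith
    positivity
  · positivity

theorem gc1 {s : ℝ} (h0 : 4 / 5 ≤ s) (h1 : s ≤ 1) :
    0 < (s - 1 / 2) * (1 - ((163 / 500) - (3 / 50) * s)) * (1 - ((163 / 500) - (3 / 50) * s) + (((91 / 100) - (227 / 1000) * s) - 79 / 100 * ((163 / 500) - (3 / 50) * s))) + (((91 / 100) - (227 / 1000) * s) - 79 / 100 * ((163 / 500) - (3 / 50) * s)) ^ 2 / 2 - 4 / 5 * s + (18 * ((163 / 500) - (3 / 50) * s) - 11 * ((163 / 500) - (3 / 50) * s) ^ 2) / 16 := by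
  obtain ⟨u, hu⟩ : ∃ u, u = s - (4 / 5) := ⟨_, rfl⟩
  obtain ⟨v, hv⟩ : ∃ v, v = 1 - s := ⟨_, rfl⟩
  have hu0 : 0 ≤ u := by linarith
  have hv0 : 0 ≤ v := by linarith
  have huv : 0 < u + v := by rw [hu, hv]; norm_num
  have e : (s - 1 / 2) * (1 - ((163 / 500) - (3 / 50) * s)) * (1 - ((163 / 500) - (3 / 50) * s) + (((91 / 100) - (227 / 1000) * s) - 79 / 100 * ((163 / 500) - (3 / 50) * s))) + (((91 / 100) - (227 / 1000) * s) - 79 / 100 * ((163 / 500) - (3 / 50) * s)) ^ 2 / 2 - 4 / 5 * s + (18 * ((163 / 500) - (3 / 50) * s) - 11 * ((163 / 500) - (3 / 50) * s) ^ 2) / 16 =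
      (78163711 / 40000000) * v ^ 3 + (36684217 / 8000000) * u * v ^ 2 + (132150213 / 40000000) * u ^ 2 * v + (26605799 / 40000000) * u ^ 3 := by
    rw [hu, hv]; ring
  rw [e]
  rcases hu0.eq_or_lt with h | h
  · have hv1 : 0 < v := by linarith
    positivity
  · positivity

theorem g01 {s : ℝ} (h0 : 4 / 5 ≤ s) (h1 : s ≤ 1) :
    0 < (s - 1 / 2) * (1 - 0) * (1 - 0 + ((91 / 100) - (227 / 1000) * s)) + ((91 / 100) - (227 / 1000) * s) ^ 2 / 2 - 4 / 5 * s + (18 * 0 - 11 * 0 ^ 2) / 16 := by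
  obtain ⟨u, hu⟩ : ∃ u, u = s - (4 / 5) := ⟨_, rfl⟩
  obtain ⟨v, hv⟩ : ∃ v, v = 1 - s := ⟨_, rfl⟩
  have hu0 : 0 ≤ u := by linarith
  have hv0 : 0 ≤ v := by linarith
  have huv : 0 < u + v := by rw [hu, hv]; norm_num
  have e : (s - 1 / 2) * (1 - 0) * (1 - 0 + ((91 / 100) - (227 / 1000) * s)) + ((91 / 100) - (227 / 1000) * s) ^ 2 / 2 - 4 / 5 * s + (18 * 0 - 11 * 0 ^ 2) / 16 =
      (1797541 / 500000) * v ^ 2 + (1066493 / 100000) * u * v + (549489 / 80000) * u ^ 2 := by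
    rw [hu, hv]; ring
  rw [e]
  rcases hu0.eq_or_lt with h | h
  · have hv1 : 0 < v := by linarith
    positivity
  · positivity

theorem gd1 {s : ℝ} (h0 : 4 / 5 ≤ s) (h1 : s ≤ 1) :
    0 < (s - 1 / 2) * (1 - 0) * (1 - 0 + ((91 / 100) - (227 / 1000) * s)) + ((91 / 100) - (227 / 1000) * s) ^ 2 / 2 - 4 / 5 * s + (18 * 0 - 11 * 0 ^ 2) / 16 - ((s - 1 / 2) * (1 + 79 / 100) + (79 / 100) ^ 2 / 2 - 11 / 16) * ((163 / 500) - (3 / 50) * s) ^ 2 := by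
  obtain ⟨u, hu⟩ : ∃ u, u = s - (4 / 5) := ⟨_, rfl⟩
  obtain ⟨v, hv⟩ : ∃ v, v = 1 - s := ⟨_, rfl⟩
  have hu0 : 0 ≤ u := by linarith
  have hv0 : 0 ≤ v := by linarith
  have huv : 0 < u + v := by rw [hu, hv]; norm_num
  have e : (s - 1 / 2) * (1 - 0) * (1 - 0 + ((91 / 100) - (227 / 1000) * s)) + ((91 / 100) - (227 / 1000) * s) ^ 2 / 2 - 4 / 5 * s + (18 * 0 - 11 * 0 ^ 2) / 16 - ((s - 1 / 2) * (1 + 79 / 100) + (79 / 100) ^ 2 / 2 - 11 / 16) * ((163 / 500) - (3 / 50) * s) ^ 2 =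
      (656590249 / 40000000) * v ^ 3 + (506354979 / 8000000) * u * v ^ 2 + (3065358507 / 40000000) * u ^ 2 * v + (1189916101 / 40000000) * u ^ 3 := by
    rw [hu, hv]; ring
  rw [e]
  rcases hu0.eq_or_lt with h | h
  · have hv1 : 0 < v := by linarith
    positivity
  · positivity

theorem cc1 {s : ℝ} (h0 : 4 / 5 ≤ s) (h1 : s ≤ 1) :
    0 < 5 * (5 * s - 2) * (79 / 100) ^ 2 - 5 * s ^ 3 := by
  obtain ⟨u, hu⟩ : ∃ u, u = s - (4 / 5) := ⟨_, rfl⟩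
  obtain ⟨v, hv⟩ : ∃ v, v = 1 - s := ⟨_, rfl⟩
  have hu0 : 0 ≤ u := by linarith
  have hv0 : 0 ≤ v := by linarith
  have huv : 0 < u + v := by rw [hu, hv]; norm_num
  have e : 5 * (5 * s - 2) * (79 / 100) ^ 2 - 5 * s ^ 3 =
      (3681 / 8) * v ^ 3 + (24487 / 16) * u * v ^ 2 + (3241 / 2) * u ^ 2 * v + (8723 / 16) * u ^ 3 := by
    rw [hu, hv]; ring
  rw [e]
  rcases hu0.eq_or_lt with h | h
  · have hv1 : 0 < v := by linarith
    positivity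
  · positivity

theorem p1c2 {s : ℝ} (h0 : 5 / 9 ≤ s) (h1 : s ≤ 4 / 5) :
    0 < s * (7 - 15 * ((163 / 500) - (3 / 50) * s) * s + 5 * ((163 / 500) - (3 / 50) * s) ^ 2 * s ^ 2) - 5 * (5 * s - 2) * (1 - 2 * ((163 / 500) - (3 / 50) * s) * s) ^ 2 := by
  obtain ⟨u, hu⟩ : ∃ u, u = s - (5 / 9) := ⟨_, rfl⟩
  obtain ⟨v, hv⟩ : ∃ v, v = (4 / 5) - s := ⟨_, rfl⟩
  have hu0 : 0 ≤ u := by linarith
  have hv0 : 0 ≤ v := by linarith
  have huv : 0 < u + v := by rw [hu, hv]; norm_num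
  have e : s * (7 - 15 * ((163 / 500) - (3 / 50) * s) * s + 5 * ((163 / 500) - (3 / 50) * s) ^ 2 * s ^ 2) - 5 * (5 * s - 2) * (1 - 2 * ((163 / 500) - (3 / 50) * s) * s) ^ 2 =
      (224515575 / 234256) * v ^ 5 + (367880913 / 117128) * u * v ^ 4 + (22655018223 / 5856400) * u ^ 2 * v ^ 3 + (364325769 / 166375) * u ^ 3 * v ^ 2 + (1020294549 / 1830125) * u ^ 4 * v + (97667046 / 1830125) * u ^ 5 := by
    rw [hu, hv]; ring
  rw [e]
  rcases hu0.eq_or_lt with h | h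
  · have hv1 : 0 < v := by linarith
    positivity
  · positivity

theorem p1h2 {s : ℝ} (h0 : 5 / 9 ≤ s) (h1 : s ≤ 4 / 5) :
    0 < s * (7 - 15 * (1 / 2) * s + 5 * (1 / 2) ^ 2 * s ^ 2) - 5 * (5 * s - 2) * (1 - 2 * (1 / 2) * s) ^ 2 := by
  obtain ⟨u, hu⟩ : ∃ u, u = s - (5 / 9) := ⟨_, rfl⟩
  obtain ⟨v, hv⟩ : ∃ v, v = (4 / 5) - s := ⟨_, rfl⟩
  have hu0 : 0 ≤ u := by linarith
  have hv0 : 0 ≤ v := by linarith
  have huv : 0 < u + v := by rw [hu, hv]; norm_num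
  have e : s * (7 - 15 * (1 / 2) * s + 5 * (1 / 2) ^ 2 * s ^ 2) - 5 * (5 * s - 2) * (1 - 2 * (1 / 2) * s) ^ 2 =
      (371875 / 5324) * v ^ 3 + (483975 / 2662) * u * v ^ 2 + (275400 / 1331) * u ^ 2 * v + (94770 / 1331) * u ^ 3 := by
    rw [hu, hv]; ring
  rw [e]
  rcases hu0.eq_or_lt with h | h
  · have hv1 : 0 < v := by linarith
    positivity
  · positivity

theorem p202_0 {s : ℝ} (h0 : 5 / 9 ≤ s) (h1 : s ≤ 136 / 225) :
    0 < s * (7 - 15 * 0 * s + 5 * 0 ^ 2 * s ^ 2) - 5 * (5 * s - 2) * ((1347 / 1000) - (77 / 100) * s) ^ 2 := by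
  obtain ⟨u, hu⟩ : ∃ u, u = s - (5 / 9) := ⟨_, rfl⟩
  obtain ⟨v, hv⟩ : ∃ v, v = (136 / 225) - s := ⟨_, rfl⟩
  have hu0 : 0 ≤ u := by linarith
  have hv0 : 0 ≤ v := by linarith
  have huv : 0 < u + v := by rw [hu, hv]; norm_num
  have e : s * (7 - 15 * 0 * s + 5 * 0 ^ 2 * s ^ 2) - 5 * (5 * s - 2) * ((1347 / 1000) - (77 / 100) * s) ^ 2 =
      (439511485 / 85184) * v ^ 3 + (63209319 / 5324) * u * v ^ 2 + (3809049477 / 425920) * u ^ 2 * v + (2358870457 / 1064800) * u ^ 3 := by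
    rw [hu, hv]; ring
  rw [e]
  rcases hu0.eq_or_lt with h | h
  · have hv1 : 0 < v := by linarith
    positivity
  · positivity

theorem p202_1 {s : ℝ} (h0 : 136 / 225 ≤ s) (h1 : s ≤ 49 / 75) :
    0 < s * (7 - 15 * 0 * s + 5 * 0 ^ 2 * s ^ 2) - 5 * (5 * s - 2) * ((1347 / 1000) - (77 / 100) * s) ^ 2 := by
  obtain ⟨u, hu⟩ : ∃ u, u = s - (136 / 225) := ⟨_, rfl⟩
  obtain ⟨v, hv⟩ : ∃ v, v = (49 / 75) - s := ⟨_, rfl⟩
  have hu0 : 0 ≤ u := by linarith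
  have hv0 : 0 ≤ v := by linarith
  have huv : 0 < u + v := by rw [hu, hv]; norm_num
  have e : s * (7 - 15 * 0 * s + 5 * 0 ^ 2 * s ^ 2) - 5 * (5 * s - 2) * ((1347 / 1000) - (77 / 100) * s) ^ 2 =
      (2358870457 / 1064800) * v ^ 3 + (9261198099 / 2129600) * u * v ^ 2 + (1428907257 / 532400) * u ^ 2 * v + (1140605847 / 2129600) * u ^ 3 := by
    rw [hu, hv]; ring
  rw [e]
  rcases hu0.eq_or_lt with h | h
  · have hv1 : 0 < v := by linarith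
    positivity
  · positivity

theorem p202_2 {s : ℝ} (h0 : 49 / 75 ≤ s) (h1 : s ≤ 158 / 225) :
    0 < s * (7 - 15 * 0 * s + 5 * 0 ^ 2 * s ^ 2) - 5 * (5 * s - 2) * ((1347 / 1000) - (77 / 100) * s) ^ 2 := by
  obtain ⟨u, hu⟩ : ∃ u, u = s - (49 / 75) := ⟨_, rfl⟩
  obtain ⟨v, hv⟩ : ∃ v, v = (158 / 225) - s := ⟨_, rfl⟩
  have hu0 : 0 ≤ u := by linarith
  have hv0 : 0 ≤ v := by linarith
  have huv : 0 < u + v := by rw [hu, hv]; norm_num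
  have e : s * (7 - 15 * 0 * s + 5 * 0 ^ 2 * s ^ 2) - 5 * (5 * s - 2) * ((1347 / 1000) - (77 / 100) * s) ^ 2 =
      (1140605847 / 2129600) * v ^ 3 + (564003027 / 1064800) * u * v ^ 2 + (85952151 / 2129600) * u ^ 2 * v + (16746487 / 532400) * u ^ 3 := by
    rw [hu, hv]; ring
  rw [e]
  rcases hu0.eq_or_lt with h | h
  · have hv1 : 0 < v := by linarith
    positivity
  · positivity

theorem p202_3 {s : ℝ} (h0 : 158 / 225 ≤ s) (h1 : s ≤ 169 / 225) :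
    0 < s * (7 - 15 * 0 * s + 5 * 0 ^ 2 * s ^ 2) - 5 * (5 * s - 2) * ((1347 / 1000) - (77 / 100) * s) ^ 2 := by
  obtain ⟨u, hu⟩ : ∃ u, u = s - (158 / 225) := ⟨_, rfl⟩
  obtain ⟨v, hv⟩ : ∃ v, v = (169 / 225) - s := ⟨_, rfl⟩
  have hu0 : 0 ≤ u := by linarith
  have hv0 : 0 ≤ v := by linarith
  have huv : 0 < u + v := by rw [hu, hv]; norm_num
  have e : s * (7 - 15 * 0 * s + 5 * 0 ^ 2 * s ^ 2) - 5 * (5 * s - 2) * ((1347 / 1000) - (77 / 100) * s) ^ 2 =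
      (16746487 / 532400) * v ^ 3 + (315963537 / 2129600) * u * v ^ 2 + (794014413 / 1064800) * u ^ 2 * v + (1307485241 / 2129600) * u ^ 3 := by
    rw [hu, hv]; ring
  rw [e]
  rcases hu0.eq_or_lt with h | h
  · have hv1 : 0 < v := by linarith
    positivity
  · positivity

theorem p202_4 {s : ℝ} (h0 : 169 / 225 ≤ s) (h1 : s ≤ 4 / 5) :
    0 < s * (7 - 15 * 0 * s + 5 * 0 ^ 2 * s ^ 2) - 5 * (5 * s - 2) * ((1347 / 1000) - (77 / 100) * s) ^ 2 := by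
  obtain ⟨u, hu⟩ : ∃ u, u = s - (169 / 225) := ⟨_, rfl⟩
  obtain ⟨v, hv⟩ : ∃ v, v = (4 / 5) - s := ⟨_, rfl⟩
  have hu0 : 0 ≤ u := by linarith
  have hv0 : 0 ≤ v := by linarith
  have huv : 0 < u + v := by rw [hu, hv]; norm_num
  have e : s * (7 - 15 * 0 * s + 5 * 0 ^ 2 * s ^ 2) - 5 * (5 * s - 2) * ((1347 / 1000) - (77 / 100) * s) ^ 2 =
      (1307485241 / 2129600) * v ^ 3 + (312844131 / 106480) * u * v ^ 2 + (386146845 / 85184) * u ^ 2 * v + (93454155 / 42592) * u ^ 3 := by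
    rw [hu, hv]; ring
  rw [e]
  rcases hu0.eq_or_lt with h | h
  · have hv1 : 0 < v := by linarith
    positivity
  · positivity

theorem p202 {s : ℝ} (h0 : 5 / 9 ≤ s) (h1 : s ≤ 4 / 5) :
    0 < s * (7 - 15 * 0 * s + 5 * 0 ^ 2 * s ^ 2) - 5 * (5 * s - 2) * ((1347 / 1000) - (77 / 100) * s) ^ 2 := by
  rcases le_total s (136 / 225) with k0 | k0
  · exact p202_0 h0 k0
  rcases le_total s (49 / 75) with k1 | k1
  · exact p202_1 k0 k1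
  rcases le_total s (158 / 225) with k2 | k2
  · exact p202_2 k1 k2
  rcases le_total s (169 / 225) with k3 | k3
  · exact p202_3 k2 k3
  exact p202_4 k3 h1

theorem p2c2 {s : ℝ} (h0 : 5 / 9 ≤ s) (h1 : s ≤ 4 / 5) :
    0 < s * (7 - 15 * ((163 / 500) - (3 / 50) * s) * s + 5 * ((163 / 500) - (3 / 50) * s) ^ 2 * s ^ 2) - 5 * (5 * s - 2) * (((1347 / 1000) - (77 / 100) * s) - 79 / 100 * ((163 / 500) - (3 / 50) * s)) ^ 2 := by
  obtain ⟨u, hu⟩ : ∃ u, u = s - (5 / 9) := ⟨_, rfl⟩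
  obtain ⟨v, hv⟩ : ∃ v, v = (4 / 5) - s := ⟨_, rfl⟩
  have hu0 : 0 ≤ u := by linarith
  have hv0 : 0 ≤ v := by linarith
  have huv : 0 < u + v := by rw [hu, hv]; norm_num
  have e : s * (7 - 15 * ((163 / 500) - (3 / 50) * s) * s + 5 * ((163 / 500) - (3 / 50) * s) ^ 2 * s ^ 2) - 5 * (5 * s - 2) * (((1347 / 1000) - (77 / 100) * s) - 79 / 100 * ((163 / 500) - (3 / 50) * s)) ^ 2 =
      (22631103897417 / 25768160000) * v ^ 5 + (37810054666647 / 12884080000) * u * v ^ 4 + (55719169930719 / 12884080000) * u ^ 2 * v ^ 3 + (25432456911201 / 6442040000) * u ^ 3 * v ^ 2 + (11690841019653 / 5153632000) * u ^ 4 * v + (7587087852951 / 12884080000) * u ^ 5 := by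
    rw [hu, hv]; ring
  rw [e]
  rcases hu0.eq_or_lt with h | h
  · have hv1 : 0 < v := by linarith
    positivity
  · positivity

theorem gc2 {s : ℝ} (h0 : 5 / 9 ≤ s) (h1 : s ≤ 4 / 5) :
    0 < (s - 1 / 2) * (1 - ((163 / 500) - (3 / 50) * s)) * (1 - ((163 / 500) - (3 / 50) * s) + (((1347 / 1000) - (77 / 100) * s) - 79 / 100 * ((163 / 500) - (3 / 50) * s))) + (((1347 / 1000) - (77 / 100) * s) - 79 / 100 * ((163 / 500) - (3 / 50) * s)) ^ 2 / 2 - 4 / 5 * s + (18 * ((163 / 500) - (3 / 50) * s) - 11 * ((163 / 500) - (3 / 50) * s) ^ 2) / 16 := by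
  obtain ⟨u, hu⟩ : ∃ u, u = s - (5 / 9) := ⟨_, rfl⟩
  obtain ⟨v, hv⟩ : ∃ v, v = (4 / 5) - s := ⟨_, rfl⟩
  have hu0 : 0 ≤ u := by linarith
  have hv0 : 0 ≤ v := by linarith
  have huv : 0 < u + v := by rw [hu, hv]; norm_num
  have e : (s - 1 / 2) * (1 - ((163 / 500) - (3 / 50) * s)) * (1 - ((163 / 500) - (3 / 50) * s) + (((1347 / 1000) - (77 / 100) * s) - 79 / 100 * ((163 / 500) - (3 / 50) * s))) + (((1347 / 1000) - (77 / 100) * s) - 79 / 100 * ((163 / 500) - (3 / 50) * s)) ^ 2 / 2 - 4 / 5 * s + (18 * ((163 / 500) - (3 / 50) * s) - 11 * ((163 / 500) - (3 / 50) * s) ^ 2) / 16 =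
      (428044484391 / 53240000000) * v ^ 3 + (950075436177 / 53240000000) * u * v ^ 2 + (117603130581 / 10648000000) * u ^ 2 * v + (63868091679 / 53240000000) * u ^ 3 := by
    rw [hu, hv]; ring
  rw [e]
  rcases hu0.eq_or_lt with h | h
  · have hv1 : 0 < v := by linarith
    positivity
  · positivity

theorem g02 {s : ℝ} (h0 : 5 / 9 ≤ s) (h1 : s ≤ 4 / 5) :
    0 < (s - 1 / 2) * (1 - 0) * (1 - 0 + ((1347 / 1000) - (77 / 100) * s)) + ((1347 / 1000) - (77 / 100) * s) ^ 2 / 2 - 4 / 5 * s + (18 * 0 - 11 * 0 ^ 2) / 16 := by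
  obtain ⟨u, hu⟩ : ∃ u, u = s - (5 / 9) := ⟨_, rfl⟩
  obtain ⟨v, hv⟩ : ∃ v, v = (4 / 5) - s := ⟨_, rfl⟩
  have hu0 : 0 ≤ u := by linarith
  have hv0 : 0 ≤ v := by linarith
  have huv : 0 < u + v := by rw [hu, hv]; norm_num
  have e : (s - 1 / 2) * (1 - 0) * (1 - 0 + ((1347 / 1000) - (77 / 100) * s)) + ((1347 / 1000) - (77 / 100) * s) ^ 2 / 2 - 4 / 5 * s + (18 * 0 - 11 * 0 ^ 2) / 16 =
      (13715529 / 9680000) * v ^ 2 + (21014667 / 4840000) * u * v + (23729841 / 9680000) * u ^ 2 := by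
    rw [hu, hv]; ring
  rw [e]
  rcases hu0.eq_or_lt with h | h
  · have hv1 : 0 < v := by linarith
    positivity
  · positivity

theorem gd2 {s : ℝ} (h0 : 5 / 9 ≤ s) (h1 : s ≤ 4 / 5) :
    0 < (s - 1 / 2) * (1 - 0) * (1 - 0 + ((1347 / 1000) - (77 / 100) * s)) + ((1347 / 1000) - (77 / 100) * s) ^ 2 / 2 - 4 / 5 * s + (18 * 0 - 11 * 0 ^ 2) / 16 - ((s - 1 / 2) * (1 + 79 / 100) + (79 / 100) ^ 2 / 2 - 11 / 16) * ((163 / 500) - (3 / 50) * s) ^ 2 := by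
  obtain ⟨u, hu⟩ : ∃ u, u = s - (5 / 9) := ⟨_, rfl⟩
  obtain ⟨v, hv⟩ : ∃ v, v = (4 / 5) - s := ⟨_, rfl⟩
  have hu0 : 0 ≤ u := by linarith
  have hv0 : 0 ≤ v := by linarith
  have huv : 0 < u + v := by rw [hu, hv]; norm_num
  have e : (s - 1 / 2) * (1 - 0) * (1 - 0 + ((1347 / 1000) - (77 / 100) * s)) + ((1347 / 1000) - (77 / 100) * s) ^ 2 / 2 - 4 / 5 * s + (18 * 0 - 11 * 0 ^ 2) / 16 - ((s - 1 / 2) * (1 + 79 / 100) + (79 / 100) ^ 2 / 2 - 11 / 16) * ((163 / 500) - (3 / 50) * s) ^ 2 =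
      (394770550509 / 53240000000) * v ^ 3 + (1367527764123 / 53240000000) * u * v ^ 2 + (292302610119 / 10648000000) * u ^ 2 * v + (488412758421 / 53240000000) * u ^ 3 := by
    rw [hu, hv]; ring
  rw [e]
  rcases hu0.eq_or_lt with h | h
  · have hv1 : 0 < v := by linarith
    positivity
  · positivity

theorem cc2 {s : ℝ} (h0 : 5 / 9 ≤ s) (h1 : s ≤ 4 / 5) :
    0 < 5 * (5 * s - 2) * (79 / 100) ^ 2 - 5 * s ^ 3 := by
  obtain ⟨u, hu⟩ : ∃ u, u = s - (5 / 9) := ⟨_, rfl⟩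
  obtain ⟨v, hv⟩ : ∃ v, v = (4 / 5) - s := ⟨_, rfl⟩
  have hu0 : 0 ≤ u := by linarith
  have hv0 : 0 ≤ v := by linarith
  have huv : 0 < u + v := by rw [hu, hv]; norm_num
  have e : 5 * (5 * s - 2) * (79 / 100) ^ 2 - 5 * s ^ 3 =
      (2288647 / 21296) * v ^ 3 + (673542 / 1331) * u * v ^ 2 + (13961403 / 21296) * u ^ 2 * v + (2683449 / 10648) * u ^ 3 := by
    rw [hu, hv]; ring
  rw [e]
  rcases hu0.eq_or_lt with h | h
  · have hv1 : 0 < v := by linarith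
    positivity
  · positivity

/-- The polynomial inequality. -/
theorem cert {s z y : ℝ} (hs : 5 / 9 ≤ s) (hs1 : s ≤ 1) (hz : 0 ≤ z) (hz1 : z ≤ 1 / 2)
    (hy : 0 ≤ y) (h1 : y ≤ 1 - 2 * z * s)
    (h2 : s * (7 - 15 * z * s + 5 * z ^ 2 * s ^ 2) ≤ 5 * (5 * s - 2) * y ^ 2) :
    4 / 5 * s - (18 * z - 11 * z ^ 2) / 16 < (s - 1 / 2) * (1 - z) * (1 - z + y) + y ^ 2 / 2 := by
  rcases le_total s (4 / 5) with h | h
  · exact cert_core hs hs1 hz hz1 hy h1 h2 (A := (1347 / 1000) - (77 / 100) * s) (B := 79 / 100)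
      (c := (163 / 500) - (3 / 50) * s) (by linarith) (by linarith) (by norm_num) (by linarith)
      (p1c2 hs h) (p1h2 hs h) (p202 hs h) (p2c2 hs h) (cc2 hs h) (gc2 hs h) (g02 hs h) (gd2 hs h)
  · exact cert_core hs hs1 hz hz1 hy h1 h2 (A := (91 / 100) - (227 / 1000) * s) (B := 79 / 100)
      (c := (163 / 500) - (3 / 50) * s) (by linarith) (by linarith) (by norm_num) (by linarith)
      (p1c1 h hs1) (p1h1 h hs1) (p201 h hs1) (p2c1 h hs1) (cc1 h hs1) (gc1 h hs1) (g01 h hs1)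
      (gd1 h hs1)

end Pool.Agent.Helper7.LS
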