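import Pool.Agent.Helper59.Pack.Star

/-!
# Definitions for the lower bound `9/20` for the double lattice packing density
-/

set_option autoImplicit false
namespace Pool.Agent.Helper7.LS
open MeasureTheory Metric
open Pool.Agent.Helper59.Pack Pool.Agent.Helper69.MD
open scoped ENNReal Pointwise

/-- The set of the points of the projection over which the vertical section has length at least
`u`. -/
def lev (K : Set E3) (u : ℝ) : Set P2 := {y | y ∈ proj K ∧ u ≤ len K y}

/-- The area of the superlevel set. -/
noncomputable def ar (K : Set E3) (u : ℝ) : ℝ := (volume (lev K u)).toReal

/-- The new weight of a point of the plane. -/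
noncomputable def fw (K : Set E3) (H : ℝ) (y : P2) : ℝ :=
  if len K y ≤ H / 2 then max 0 (2 * len K y / H - 1 / 2) else 1

end Pool.Agent.Helper7.LS
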